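import Mathlib
import Pool.Agent.Q160.Tab

/-!
# The tree of shifted standard Young tableaux is rigid (MP_c76eb3_co)
-/

namespace Pool.Agent.Results.MP_c76eb3_co.Rigid

open Q160.STree

/-- A shifted standard Young tableau, given by its size `n` and its entries: `entry i j` is the
entry in row `i` and column `j` (both counted from `0`), and `0` if there is no cell at `(i, j)`.
All cells satisfy `i ≤ j`; each of `1, …, n` is used once; rows and columns are increasing; if a
cell is present then so are the cell just to the left of it (if that one is not below the diagonal)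
and the cell just above it.  The nonempty cells thus form the shifted diagram of a strict
partition: row `i` begins in column `i`. -/
@[ext] structure ShiftedSYT where
  size : ℕ
  entry : ℕ → ℕ → ℕ
  below_diag : ∀ i j, j < i → entry i j = 0
  entry_le : ∀ i j, entry i j ≤ size
  used_once : ∀ m, 1 ≤ m → m ≤ size → ∃! c : ℕ × ℕ, entry c.1 c.2 = m
  row_inc : ∀ i j, i ≤ j → entry i (j + 1) ≠ 0 → entry i j ≠ 0 ∧ entry i j < entry i (j + 1)
  col_inc : ∀ i j, i + 1 ≤ j → entry (i + 1) j ≠ 0 →
    entry i j ≠ 0 ∧ entry i j < entry (i + 1) j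

/-- `T` is a child of `S`: `T` has one cell more than `S`, and deleting the cell of `T` that
contains its largest entry gives `S`. -/
def IsChild (S T : ShiftedSYT) : Prop :=
  T.size = S.size + 1 ∧ ∀ i j, S.entry i j = if T.entry i j = T.size then 0 else T.entry i j

/-- The underlying graph of the tree of shifted standard Young tableaux. -/
def tree : SimpleGraph ShiftedSYT where
  Adj S T := IsChild S T ∨ IsChild T S
  symm := ⟨fun _ _ h => h.symm⟩
  loopless := ⟨fun S h => by
    rcases h with ⟨h, _⟩ | ⟨h, _⟩ <;> omega⟩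

lemma ShiftedSYT.isTab (T : ShiftedSYT) : IsTab 1 (fun _ => True) T.size T.entry where
  lower := fun i j h => T.below_diag i j (by omega)
  le := T.entry_le
  surj := fun m h1 h2 => by
    obtain ⟨c, hc, _⟩ := T.used_once m h1 h2
    exact ⟨c.1, c.2, hc⟩
  inj := fun i j i' j' h1 h2 => by
    obtain ⟨c, _, hu⟩ := T.used_once (T.entry i j) (by omega) (T.entry_le i j)
    have h3 := hu (i, j) rfl
    have h4 := hu (i', j') h2.symm
    have h5 : (i, j) = (i', j') := h3.trans h4.symm
    simpa using h5
  row := fun i j hj h => T.row_inc i j (by omega) h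
  col := fun i j hj h => T.col_inc i j (by omega) h
  rows := fun i j h => absurd trivial h

/-- The equivalence with the general type of tableaux. -/
def toTab : ShiftedSYT ≃ Tab 1 (fun _ => True) where
  toFun T := ⟨T.size, T.entry, T.isTab⟩
  invFun T := ⟨T.n, T.E, fun i j h => T.isTab.lower i j (by omega), T.isTab.le,
    fun m h1 h2 => by
      obtain ⟨i, j, hij⟩ := T.isTab.surj m h1 h2
      refine ⟨(i, j), hij, ?_⟩
      rintro ⟨i', j'⟩ h'
      simp only at h'
      obtain ⟨h3, h4⟩ := T.isTab.inj i j i' j' (by omega) (by rw [hij, h'])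
      rw [h3, h4],
    fun i j hj h => T.isTab.row i j (by omega) h,
    fun i j hj h => T.isTab.col i j (by omega) h⟩
  left_inv _ := rfl
  right_inv _ := rfl

/-- The tree structure. -/
noncomputable def 𝒯 : ShapeTree ShiftedSYT 1 (fun _ => True) :=
  (tabTree 1 (fun _ => True)).pull toTab

lemma child_iff (S T : ShiftedSYT) : IsChild S T ↔ 𝒯.Child S T := by
  show (T.size = S.size + 1 ∧ ∀ i j, S.entry i j = if T.entry i j = T.size then 0
    else T.entry i j) ↔ (T.size = S.size + 1 ∧ S.entry = rem T.size T.entry)
  constructor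
  · rintro ⟨h1, h2⟩
    exact ⟨h1, funext fun i => funext fun j => h2 i j⟩
  · rintro ⟨h1, h2⟩
    exact ⟨h1, fun i j => by rw [h2]; rfl⟩

/-- **Answer to MP_c76eb3_co (proved).**  The identity is the only automorphism of the tree of
shifted standard Young tableaux: the only bijection of its vertices which preserves the
parent-child relation is the identity, and so is the only automorphism of the underlying graph. -/
theorem result :
    (∀ φ : ShiftedSYT ≃ ShiftedSYT, (∀ S T, IsChild S T ↔ IsChild (φ S) (φ T)) →
      ∀ T, φ T = T) ∧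
    (∀ φ : tree ≃g tree, ∀ T, φ T = T) := by
  have h0 : ∀ φ : ShiftedSYT ≃ ShiftedSYT, (∀ S T, IsChild S T ↔ IsChild (φ S) (φ T)) →
      ∀ T, φ T = T := by
    intro φ hφ T
    have h1 : ∀ S T, 𝒯.Child S T ↔ 𝒯.Child (φ S) (φ T) := by
      intro S T
      rw [← child_iff, ← child_iff]
      exact hφ S T
    have h2 := 𝒯.rigid (fun i j hij hj => trivial) (Or.inl le_rfl) φ h1
    rw [h2]
    rfl
  refine ⟨h0, ?_⟩
  intro φ
  have hG : ∀ v w, tree.Adj v w ↔ 𝒯.Child v w ∨ 𝒯.Child w v := by
    intro v w
    show IsChild v w ∨ IsChild w v ↔ _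
    rw [child_iff, child_iff]
  have h1 := 𝒯.graph_map_child_iff tree hG trivial φ
  apply h0 φ.toEquiv
  intro S T
  rw [child_iff, child_iff]
  exact h1 S T

end Pool.Agent.Results.MP_c76eb3_co.Rigid
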